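import Mathlib

/-!
The algebra of the closure process: a set of points of `AG(2,K)` closed under intersecting the
lines of four slopes is everything.
-/

set_option autoImplicit false

namespace Pool.Agent.H61.Quad

variable {K : Type*} [Field K]

/-- closure of a set of points under the lines of slopes `t`, `t'` -/
def Mix (U : Set (K × K)) (t t' : K) : Prop :=
  ∀ z : K × K, (∃ w ∈ U, z.1 - t * z.2 = w.1 - t * w.2) →
    (∃ w ∈ U, z.1 - t' * z.2 = w.1 - t' * w.2) → z ∈ U

/-- an additive subgroup invariant under a generator of the field is everything -/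
theorem gen_top [Finite K] (F : AddSubgroup K) (mu x0 : K) (hx0 : x0 ≠ 0) (hx0F : x0 ∈ F)
    (hmu : ∀ x ∈ F, mu * x ∈ F) (hg : ∀ E : Subfield K, mu ∈ E → E = ⊤) : F = ⊤ := by
  classical
  cases nonempty_fintype K
  have hpow : ∀ (x : K), (∀ y ∈ F, x * y ∈ F) → ∀ n : ℕ, ∀ y ∈ F, x ^ n * y ∈ F := by
    intro x hx n
    induction n with
    | zero => intro y hy; simpa using hy
    | succ n ih =>
      intro y hy
      rw [pow_succ, mul_assoc]
      exact ih _ (hx y hy)
  let E : Subfield K :=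
    { carrier := {x | ∀ y ∈ F, x * y ∈ F}
      mul_mem' := by
        intro a b ha hb y hy
        rw [mul_assoc]
        exact ha _ (hb y hy)
      one_mem' := by
        intro y hy
        simpa using hy
      add_mem' := by
        intro a b ha hb y hy
        rw [add_mul]
        exact F.add_mem (ha y hy) (hb y hy)
      zero_mem' := by
        intro y _
        simp
      neg_mem' := by
        intro a ha y hy
        rw [neg_mul]
        exact F.neg_mem (ha y hy)
      inv_mem' := by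
        intro a ha y hy
        by_cases h0 : a = 0
        · subst h0
          simp
        · have h1 : a⁻¹ = a ^ (Fintype.card K - 2) := by
            have h2 := FiniteField.pow_card_sub_one_eq_one a h0
            have h3 : 2 ≤ Fintype.card K := Fintype.one_lt_card
            have h4 : Fintype.card K - 1 = (Fintype.card K - 2) + 1 := by omega
            rw [h4, pow_succ] at h2
            exact (eq_inv_of_mul_eq_one_left h2).symm
          rw [h1]
          exact hpow a ha _ y hy }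
  have hE : E = ⊤ := hg E hmu
  rw [eq_top_iff]
  intro x _
  have h1 : x * x0⁻¹ ∈ E := by rw [hE]; trivial
  have h2 : x * x0⁻¹ * x0 ∈ F := h1 x0 hx0F
  rwa [inv_mul_cancel_right₀ hx0] at h2

/-- the closure process fills the affine plane -/
theorem mix_top [Finite K] (U : Set (K × K)) (t1 t2 t3 t4 mu : K)
    (h12 : t1 ≠ t2) (h13 : t1 ≠ t3) (h23 : t2 ≠ t3) (h34 : t3 ≠ t4)
    (hmu : (t3 - t2) * (t1 - t4) = mu * ((t1 - t2) * (t3 - t4)))
    (hg : ∀ E : Subfield K, mu ∈ E → E = ⊤)
    (m12 : Mix U t1 t2) (m13 : Mix U t1 t3) (m23 : Mix U t3 t2) (m34 : Mix U t3 t4)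
    (h0 : ((0 : K), (0 : K)) ∈ U) (h1 : ((1 : K), (0 : K)) ∈ U) (z : K × K) : z ∈ U := by
  have d12 : t1 - t2 ≠ 0 := sub_ne_zero.2 h12
  have d13 : t1 - t3 ≠ 0 := sub_ne_zero.2 h13
  have d23 : t2 - t3 ≠ 0 := sub_ne_zero.2 h23
  have d32 : t3 - t2 ≠ 0 := sub_ne_zero.2 h23.symm
  have d31 : t3 - t1 ≠ 0 := sub_ne_zero.2 h13.symm
  have d34 : t3 - t4 ≠ 0 := sub_ne_zero.2 h34
  -- the first projection
  have key2 : ∀ b : K, (∃ w ∈ U, b = w.1 - t1 * w.2) →
      ∃ w ∈ U, (t3 - t2) / (t3 - t1) * b = w.1 - t2 * w.2 := by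
    rintro b ⟨w, hw, hb⟩
    refine ⟨(t3 * b / (t3 - t1), b / (t3 - t1)), m13 _ ⟨w, hw, ?_⟩ ⟨_, h0, ?_⟩, ?_⟩
    · rw [← hb]
      field_simp
    · field_simp
      ring
    · field_simp
  have hsub : ∀ a b : K, (∃ w ∈ U, a = w.1 - t1 * w.2) → (∃ w ∈ U, b = w.1 - t1 * w.2) →
      ∃ w ∈ U, a - b = w.1 - t1 * w.2 := by
    rintro a b ⟨w, hw, ha⟩ hb
    obtain ⟨w2, hw2, hb2⟩ := key2 b hb
    -- the point with first coordinate a and second coordinate b2
    have hz : ((a - t1 * (((t3 - t2) / (t3 - t1) * b - a) / (t1 - t2)) +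
        2 * t1 * (((t3 - t2) / (t3 - t1) * b - a) / (t1 - t2)) : K),
        ((t3 - t2) / (t3 - t1) * b - a) / (t1 - t2)) ∈ U := by
      refine m12 _ ⟨w, hw, ?_⟩ ⟨w2, hw2, ?_⟩
      · rw [← ha]
        ring
      · rw [← hb2]
        field_simp
        ring
    set y := ((t3 - t2) / (t3 - t1) * b - a) / (t1 - t2) with hy
    -- the point with third coordinate as above and second coordinate zero
    refine ⟨(t2 * ((a - b) / (t2 - t1)), (a - b) / (t2 - t1)),
      m23 _ ⟨_, hz, ?_⟩ ⟨_, h0, ?_⟩, ?_⟩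
    · have hy1 : y * ((t1 - t2) * (t3 - t1)) = (t3 - t2) * b - a * (t3 - t1) := by
        rw [hy]
        field_simp
      have d21 : t2 - t1 ≠ 0 := sub_ne_zero.2 h12.symm
      have hy2 : y = ((t3 - t2) * b - a * (t3 - t1)) / ((t1 - t2) * (t3 - t1)) := by
        rw [eq_div_iff (mul_ne_zero d12 d31), hy1]
      simp only
      rw [hy2]
      field_simp
      ring
    · simp
    · have d21 : t2 - t1 ≠ 0 := sub_ne_zero.2 h12.symm
      simp only
      field_simp
  have hF0 : ∃ w ∈ U, (0 : K) = w.1 - t1 * w.2 := ⟨_, h0, by simp⟩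
  have hF1 : ∃ w ∈ U, (1 : K) = w.1 - t1 * w.2 := ⟨_, h1, by simp⟩
  let F : AddSubgroup K :=
    { carrier := {b | ∃ w ∈ U, b = w.1 - t1 * w.2}
      zero_mem' := hF0
      neg_mem' := by
        intro a ha
        have := hsub 0 a hF0 ha
        simpa using this
      add_mem' := by
        intro a b ha hb
        have h2 := hsub 0 b hF0 hb
        have h3 := hsub a (0 - b) ha h2
        have h4 : a - (0 - b) = a + b := by ring
        rw [h4] at h3
        exact h3 }
  have hmul : ∀ x ∈ F, mu * x ∈ F := by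
    rintro x ⟨w, hw, hx⟩
    have d21 : t2 - t1 ≠ 0 := sub_ne_zero.2 h12.symm
    have d43 : t4 - t3 ≠ 0 := sub_ne_zero.2 h34.symm
    -- first coordinate x and second coordinate zero
    have hz : ((t2 * (x / (t2 - t1)) : K), x / (t2 - t1)) ∈ U := by
      refine m12 _ ⟨w, hw, ?_⟩ ⟨_, h0, ?_⟩
      · rw [← hx]
        simp only
        field_simp
      · simp
    have hmu2 : mu = (t3 - t2) * (t1 - t4) / ((t1 - t2) * (t3 - t4)) := by
      rw [eq_div_iff (mul_ne_zero d12 d34), hmu]
    refine ⟨(t4 * (x * (t3 - t2) / ((t1 - t2) * (t4 - t3))), x * (t3 - t2) / ((t1 - t2) * (t4 - t3))),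
      m34 _ ⟨_, hz, ?_⟩ ⟨_, h0, ?_⟩, ?_⟩
    · simp only
      field_simp
      ring
    · simp
    · simp only
      rw [hmu2]
      field_simp
      ring
  have hFtop : F = ⊤ := gen_top F mu 1 one_ne_zero hF1 hmul hg
  have hall : ∀ b : K, ∃ w ∈ U, b = w.1 - t1 * w.2 := by
    intro b
    have : b ∈ F := by rw [hFtop]; trivial
    exact this
  refine m12 z (hall _) ?_
  obtain ⟨w, hw, hw2⟩ := key2 ((t3 - t1) / (t3 - t2) * (z.1 - t2 * z.2)) (hall _)
  refine ⟨w, hw, ?_⟩
  rw [← hw2]
  field_simp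

end Pool.Agent.H61.Quad
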