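import Pool.Agent.H61.Quad.Geo
import Pool.Agent.H61.Quad.Alg

/-!
The core theorem: a quadrangle that generates the plane, in a chart in which the three points
`(0,0)`, `(1,0)`, `(0,1)` are collinear.
-/

set_option autoImplicit false

open Configuration Configuration.ProjectivePlane

namespace Pool.Agent.H61.Quad

variable {K P L : Type*} [Field K] [Membership P L] [ProjectivePlane P L]
variable {linf : L} {e : K × K → P}

/-- closed under intersecting spanned lines -/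
def Closed (L : Type*) {P : Type*} [Membership P L] (S : Set P) : Prop :=
  ∀ l m : L, l ≠ m →
    (∃ p q : P, p ∈ S ∧ q ∈ S ∧ p ≠ q ∧ p ∈ l ∧ q ∈ l) →
    (∃ p q : P, p ∈ S ∧ q ∈ S ∧ p ≠ q ∧ p ∈ m ∧ q ∈ m) →
    ∀ x : P, x ∈ l → x ∈ m → x ∈ S

/-- the line of slope `t` through a point -/
theorem Good.line {t : K} (ht : Good L e t) (w : K × K) :
    ∃ l : L, ∀ z : K × K, z.1 - t * z.2 = w.1 - t * w.2 → e z ∈ l := by
  obtain ⟨l, hl⟩ := ht (w.1 - t * w.2)
  refine ⟨l, fun z hz => ?_⟩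
  have h1 := hl z.2
  have h2 : (w.1 - t * w.2 + t * z.2, z.2) = z := by
    ext
    · simp only
      rw [← hz]
      ring
    · rfl
  rwa [h2] at h1

/-- two affine points on a line of good slope -/
theorem Chart.exact2 [Finite P] (hc : Chart linf e) {t : K} (ht : Good L e t) {l : L}
    {w w' : K × K} (hne : w ≠ w') (h1 : e w ∈ l) (h2 : e w' ∈ l)
    (h3 : w.1 - t * w.2 = w'.1 - t * w'.2) {z : K × K} (hz : e z ∈ l) :
    z.1 - t * z.2 = w.1 - t * w.2 := by
  obtain ⟨l', hl'⟩ := ht (w.1 - t * w.2)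
  have e1 : e w ∈ l' := by
    have := hl' w.2
    have h5 : (w.1 - t * w.2 + t * w.2, w.2) = w := by ext <;> simp
    rwa [h5] at this
  have e2 : e w' ∈ l' := by
    have := hl' w'.2
    have h5 : (w.1 - t * w.2 + t * w'.2, w'.2) = w' := by
      rw [h3]
      ext <;> simp
    rwa [h5] at this
  have h4 : l = l' := line_unique (hc.inj.ne hne) h1 h2 e1 e2
  subst h4
  have h5 := hc.exact hl' (x := z.1) (y := z.2) (by simpa using hz)
  rw [h5]
  ring

/-- all points of a classical line through two given points of a line lie on it -/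
theorem Chart.fill [Finite P] (hc : Chart linf e) {t : K} (ht : Good L e t) {l : L}
    {w w' : K × K} (hne : w ≠ w') (h1 : e w ∈ l) (h2 : e w' ∈ l)
    (h3 : w.1 - t * w.2 = w'.1 - t * w'.2) (z : K × K)
    (hz : z.1 - t * z.2 = w.1 - t * w.2) : e z ∈ l := by
  obtain ⟨l', hl'⟩ := ht.line w
  have h4 : l = l' := line_unique (hc.inj.ne hne) h1 h2 (hl' w rfl) (hl' w' h3.symm)
  rw [h4]
  exact hl' z hz

/-- infinite points of distinct good slopes are distinct -/
theorem Chart.inf_ne [Finite P] (hc : Chart linf e) {s t : K} (hst : s ≠ t)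
    (hs : Good L e s) (ht : Good L e t) {I J : P} (hI : I ∈ linf)
    (hIs : ∀ (m : K) (l : L), (∀ y : K, e (m + s * y, y) ∈ l) → I ∈ l)
    (hJt : ∀ (m : K) (l : L), (∀ y : K, e (m + t * y, y) ∈ l) → J ∈ l) : I ≠ J := by
  rintro rfl
  obtain ⟨l, hl⟩ := hs 0
  obtain ⟨m, hm⟩ := ht 0
  have h1 := hIs 0 l hl
  have h2 := hJt 0 m hm
  have h3 : e ((0 : K), (0 : K)) ∈ l := by simpa using hl 0
  have h4 : e ((0 : K), (0 : K)) ∈ m := by simpa using hm 0
  have h5 : l = m := line_unique (hc.ne_of_mem hI) h3 h1 h4 h2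
  subst h5
  have h6 := hm 1
  have h7 := hc.exact hl h6
  apply hst
  simpa using h7.symm

/-- a closed set with two affine points on a line of a good slope and two points at infinity
contains the infinite point of the slope -/
theorem Closed.inf_mem [Finite P] (hc : Chart linf e) {S : Set P} (hS : Closed L S) {t : K}
    (ht : Good L e t) {I J T : P} (hI : I ∈ linf) (hJ : J ∈ linf) (hIJ : I ≠ J) (hIS : I ∈ S)
    (hJS : J ∈ S) (hT : T ∈ linf)
    (hTt : ∀ (m : K) (l : L), (∀ y : K, e (m + t * y, y) ∈ l) → T ∈ l)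
    {w w' : K × K} (hne : w ≠ w') (h1 : e w ∈ S) (h2 : e w' ∈ S)
    (h3 : w.1 - t * w.2 = w'.1 - t * w'.2) : T ∈ S := by
  obtain ⟨l, hl⟩ := ht (w.1 - t * w.2)
  have e1 : e w ∈ l := by
    have := hl w.2
    have h5 : (w.1 - t * w.2 + t * w.2, w.2) = w := by ext <;> simp
    rwa [h5] at this
  have e2 : e w' ∈ l := by
    have := hl w'.2
    have h5 : (w.1 - t * w.2 + t * w'.2, w'.2) = w' := by
      rw [h3]
      ext <;> simp
    rwa [h5] at this
  exact hS l linf (hc.ne_linf e1) ⟨e w, e w', h1, h2, hc.inj.ne hne, e1, e2⟩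
    ⟨I, J, hIS, hJS, hIJ, hI, hJ⟩ T (hTt _ l hl) hT

/-- the closure of the affine part under the lines of two slopes -/
theorem Closed.mix [Finite P] (hc : Chart linf e) {S : Set P} (hS : Closed L S) {s t : K}
    (hst : s ≠ t) (hs : Good L e s) (ht : Good L e t) {I J : P} (hI : I ∈ linf) (hJ : J ∈ linf)
    (hIS : I ∈ S) (hJS : J ∈ S)
    (hIs : ∀ (m : K) (l : L), (∀ y : K, e (m + s * y, y) ∈ l) → I ∈ l)
    (hJt : ∀ (m : K) (l : L), (∀ y : K, e (m + t * y, y) ∈ l) → J ∈ l) :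
    Mix {z : K × K | e z ∈ S} s t := by
  rintro z ⟨w, hw, hzw⟩ ⟨w', hw', hzw'⟩
  obtain ⟨l, hl⟩ := hs (w.1 - s * w.2)
  obtain ⟨m, hm⟩ := ht (w'.1 - t * w'.2)
  have el : ∀ v : K × K, v.1 - s * v.2 = w.1 - s * w.2 → e v ∈ l := by
    intro v hv
    have := hl v.2
    have h5 : (w.1 - s * w.2 + s * v.2, v.2) = v := by
      rw [← hv]
      ext <;> simp
    rwa [h5] at this
  have em : ∀ v : K × K, v.1 - t * v.2 = w'.1 - t * w'.2 → e v ∈ m := by
    intro v hv
    have := hm v.2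
    have h5 : (w'.1 - t * w'.2 + t * v.2, v.2) = v := by
      rw [← hv]
      ext <;> simp
    rwa [h5] at this
  have hlm : l ≠ m := by
    rintro rfl
    have h1 := hl (z.2 + 1)
    have h2 := hc.exact hm h1
    have h3 := hc.exact hm (hl z.2)
    have h4 : s * (z.2 + 1) - s * z.2 = t * (z.2 + 1) - t * z.2 := by
      linear_combination h2 - h3
    apply hst
    linear_combination h4
  exact hS l m hlm ⟨e w, I, hw, hIS, hc.ne_of_mem hI, el w rfl, hIs _ l hl⟩
    ⟨e w', J, hw', hJS, hc.ne_of_mem hJ, em w' rfl, hJt _ m hm⟩ (e z) (el z hzw) (em z hzw')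

/-- a closed set with all the affine points and two infinite points is everything -/
theorem Closed.univ [Finite P] (hc : Chart linf e) {S : Set P} (hS : Closed L S)
    (hall : ∀ z, e z ∈ S) {I J : P} (hI : I ∈ linf) (hJ : J ∈ linf) (hIJ : I ≠ J) (hIS : I ∈ S)
    (hJS : J ∈ S) (x : P) : x ∈ S := by
  classical
  by_cases hx : x ∈ linf
  swap
  · obtain ⟨z, rfl⟩ := (hc.ran x).1 hx
    exact hall z
  haveI := finite_lines P L
  have h0 : e (0, 0) ≠ x := hc.ne_of_mem hx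
  have h1 := HasLines.mkLine_ax (L := L) h0
  set l : L := HasLines.mkLine h0 with hl
  have hlinf : l ≠ linf := hc.ne_linf h1.1
  -- a third point of the line
  have h2 : ∃ y : P, y ∈ l ∧ y ≠ e (0, 0) ∧ y ≠ x := by
    have h3 := two_lt_pointCount P l
    unfold pointCount at h3
    by_contra hcon
    push Not at hcon
    let f : {p : P // p ∈ l} → Fin 2 := fun p => if (p : P) = e (0, 0) then 0 else 1
    have hf : Function.Injective f := by
      intro p q hpq
      by_cases hp : (p : P) = e (0, 0) <;> by_cases hq : (q : P) = e (0, 0)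
      · exact Subtype.ext (hp.trans hq.symm)
      · simp [f, hp, hq] at hpq
      · simp [f, hp, hq] at hpq
      · exact Subtype.ext ((hcon p p.2 hp).trans (hcon q q.2 hq).symm)
    have h4 := Nat.card_le_card_of_injective f hf
    rw [Nat.card_fin] at h4
    omega
  obtain ⟨y, hyl, hy0, hyx⟩ := h2
  have hyinf : y ∉ linf := by
    intro hy
    exact hlinf (line_unique hyx hyl h1.2 hy hx)
  obtain ⟨w, rfl⟩ := (hc.ran y).1 hyinf
  exact hS l linf hlinf ⟨e w, e (0, 0), hall _, hall _, hy0, hyl, h1.1⟩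
    ⟨I, J, hIS, hJS, hIJ, hI, hJ⟩ x h1.2 hx

theorem core [Finite P] [Finite K] (hc : Chart linf e) (l' : L) (hA : e (0, 0) ∈ l')
    (hB : e (1, 0) ∈ l') (hR : e (0, 1) ∈ l') (r : K) (h0 : r ≠ 0) (h1 : r + 1 ≠ 0)
    (h2 : 2 * r + 1 ≠ 0) (hk : r ^ 2 + r + 1 ≠ 0) (hN : 2 * r ^ 2 + 2 * r + 1 ≠ 0)
    (hg : ∀ E : Subfield K, r ∈ E → E = ⊤)
    (g1 : Good L e (-(r ^ 2 + r + 1) / (r + 1))) (g2 : Good L e (r - 1))
    (g3 : Good L e ((r ^ 2 + r + 1) / r)) (g4 : Good L e (-(r + 2)))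
    (g5 : Good L e (-(r ^ 2 + r + 1) / (2 * r ^ 2 + 2 * r + 1))) : GenQ P L := by
  set k : K := r ^ 2 + r + 1 with hkd
  set N : K := 2 * r ^ 2 + 2 * r + 1 with hNd
  set c1 : K := -k / (r + 1) with hc1
  set c2 : K := r - 1 with hc2
  set d1 : K := k / r with hd1
  set d2 : K := -(r + 2) with hd2
  set rho : K := -k / N with hrho
  have h2' : r * 2 + 1 ≠ 0 := by rwa [mul_comm]
  -- differences of slopes
  have n12 : c1 - c2 = -(r * (2 * r + 1)) / (r + 1) := by
    rw [hc1, hc2, hkd]; field_simp; ring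
  have n13 : c1 - d1 = -(k * (2 * r + 1)) / (r * (r + 1)) := by
    rw [hc1, hd1]; field_simp; ring
  have n23 : d1 - c2 = (2 * r + 1) / r := by
    rw [hc2, hd1, hkd]; field_simp; ring
  have n14 : c1 - rho = -(k * r * (2 * r + 1)) / (N * (r + 1)) := by
    rw [hc1, hrho]; field_simp; rw [hNd]; ring
  have n34 : d1 - rho = k * (2 * r + 1) * (r + 1) / (r * N) := by
    rw [hd1, hrho]; field_simp; rw [hNd]; ring
  have m12 : c1 ≠ c2 := by
    rw [← sub_ne_zero, n12]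
    exact div_ne_zero (neg_ne_zero.2 (mul_ne_zero h0 h2)) h1
  have m13 : c1 ≠ d1 := by
    rw [← sub_ne_zero, n13]
    exact div_ne_zero (neg_ne_zero.2 (mul_ne_zero hk h2)) (mul_ne_zero h0 h1)
  have m32 : d1 ≠ c2 := by
    rw [← sub_ne_zero, n23]
    exact div_ne_zero h2 h0
  have m14 : c1 ≠ rho := by
    rw [← sub_ne_zero, n14]
    exact div_ne_zero (neg_ne_zero.2 (mul_ne_zero (mul_ne_zero hk h0) h2)) (mul_ne_zero hN h1)
  have m34 : d1 ≠ rho := by
    rw [← sub_ne_zero, n34]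
    exact div_ne_zero (mul_ne_zero (mul_ne_zero hk h2) h1) (mul_ne_zero h0 hN)
  -- the points
  set A : K × K := (0, 0) with hAd
  set B : K × K := (1, 0) with hBd
  set R : K × K := (0, 1) with hRd
  set C : K × K := (k / (r * (2 * r + 1)), -(r + 1) / (r * (2 * r + 1))) with hCd
  set D : K × K := (k / ((r + 1) * (2 * r + 1)), r / ((r + 1) * (2 * r + 1))) with hDd
  set G : K × K := (-k / (2 * r + 1), (r + 1) / (2 * r + 1)) with hGd
  set H : K × K := (k / (2 * r + 1), r / (2 * r + 1)) with hHd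
  have AneB : A ≠ B := by
    rw [hAd, hBd]; intro h; exact zero_ne_one (Prod.ext_iff.1 h).1
  have CneA : C ≠ A := by
    intro h
    have := (Prod.ext_iff.1 h).2
    simp only [hCd, hAd] at this
    rw [div_eq_zero_iff] at this
    rcases this with h | h
    · exact h1 (neg_eq_zero.1 h)
    · exact mul_ne_zero h0 h2 h
  have CneB : C ≠ B := by
    intro h
    have := (Prod.ext_iff.1 h).2
    simp only [hCd, hBd] at this
    rw [div_eq_zero_iff] at this
    rcases this with h | h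
    · exact h1 (neg_eq_zero.1 h)
    · exact mul_ne_zero h0 h2 h
  have DneA : D ≠ A := by
    intro h
    have := (Prod.ext_iff.1 h).2
    simp only [hDd, hAd] at this
    rw [div_eq_zero_iff] at this
    rcases this with h | h
    · exact h0 h
    · exact mul_ne_zero h1 h2 h
  have DneB : D ≠ B := by
    intro h
    have := (Prod.ext_iff.1 h).2
    simp only [hDd, hBd] at this
    rw [div_eq_zero_iff] at this
    rcases this with h | h
    · exact h0 h
    · exact mul_ne_zero h1 h2 h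
  have CneD : C ≠ D := by
    intro h
    have h3 := (Prod.ext_iff.1 h).2
    simp only [hCd, hDd] at h3
    field_simp at h3
    apply hN
    rw [hNd]
    linear_combination -h3
  -- values of the linear forms
  have vC1 : C.1 - c1 * C.2 = A.1 - c1 * A.2 := by
    simp only [hCd, hAd, hc1]; field_simp; ring
  have vC2 : C.1 - c2 * C.2 = B.1 - c2 * B.2 := by
    simp only [hCd, hBd, hc2, hkd]; field_simp; ring
  have vD1 : D.1 - d1 * D.2 = A.1 - d1 * A.2 := by
    simp only [hDd, hAd, hd1]; field_simp; ring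
  have vD2 : D.1 - d2 * D.2 = B.1 - d2 * B.2 := by
    simp only [hDd, hBd, hd2, hkd]; field_simp; ring
  have vC5 : C.1 - rho * C.2 = R.1 - rho * R.2 := by
    simp only [hCd, hRd, hrho]; field_simp; rw [hNd]; ring
  have vD5 : D.1 - rho * D.2 = R.1 - rho * R.2 := by
    simp only [hDd, hRd, hrho]; field_simp; rw [hNd]; ring
  have vG1 : G.1 - c1 * G.2 = A.1 - c1 * A.2 := by
    simp only [hGd, hAd, hc1]; field_simp; ring
  have vG2 : G.1 - d2 * G.2 = B.1 - d2 * B.2 := by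
    simp only [hGd, hBd, hd2, hkd]; field_simp; ring
  have vH1 : H.1 - d1 * H.2 = A.1 - d1 * A.2 := by
    simp only [hHd, hAd, hd1]; field_simp; ring
  have vH2 : H.1 - c2 * H.2 = B.1 - c2 * B.2 := by
    simp only [hHd, hBd, hc2, hkd]; field_simp; ring
  have vG3 : G.1 - d1 * G.2 = R.1 - d1 * R.2 := by
    simp only [hGd, hRd, hd1]; field_simp; ring
  have vH3 : H.1 - c1 * H.2 = R.1 - c1 * R.2 := by
    simp only [hHd, hRd, hc1]; field_simp; ring
  have hd1ne : d1 ≠ 0 := div_ne_zero hk h0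
  have hc1ne : c1 ≠ 0 := div_ne_zero (neg_ne_zero.2 hk) h1
  have hrhone : rho ≠ 0 := div_ne_zero (neg_ne_zero.2 hk) hN
  have hnoABC : ¬ ∃ l : L, e A ∈ l ∧ e B ∈ l ∧ e C ∈ l := by
    rintro ⟨l, ha, hb, hcc⟩
    have := hc.exact2 g1 CneA hcc ha vC1 hb
    rw [vC1] at this
    simp [hAd, hBd] at this
  have hnoABD : ¬ ∃ l : L, e A ∈ l ∧ e B ∈ l ∧ e D ∈ l := by
    rintro ⟨l, ha, hb, hdd⟩
    have := hc.exact2 g3 DneA hdd ha vD1 hb
    rw [vD1] at this
    simp [hAd, hBd] at this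
  have hnoACD : ¬ ∃ l : L, e A ∈ l ∧ e C ∈ l ∧ e D ∈ l := by
    rintro ⟨l, ha, hcc, hdd⟩
    have := hc.exact2 g5 CneD hcc hdd (vC5.trans vD5.symm) ha
    rw [vC5] at this
    simp [hAd, hRd] at this
    exact hrhone this
  have hnoBCD : ¬ ∃ l : L, e B ∈ l ∧ e C ∈ l ∧ e D ∈ l := by
    rintro ⟨l, hb, hcc, hdd⟩
    have h3 := hc.exact2 g2 CneB hcc hb vC2 hdd
    rw [vC2] at h3
    simp only [hDd, hBd, hc2, hkd] at h3
    field_simp at h3
    apply mul_ne_zero h0 h2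
    linear_combination -h3
  refine ⟨e A, e B, e C, e D, hnoABC, hnoABD, hnoACD, hnoBCD, ?_⟩
  intro S hAS hBS hCS hDS hS
  have hS' : Closed L S := hS
  -- the lines
  obtain ⟨lAC, hAC⟩ := g1.line A
  obtain ⟨lBC, hBC⟩ := g2.line B
  obtain ⟨lAD, hAD⟩ := g3.line A
  obtain ⟨lBD, hBD⟩ := g4.line B
  obtain ⟨lCD, hCD⟩ := g5.line R
  have hRS : e R ∈ S := by
    refine hS l' lCD ?_ ⟨e A, e B, hAS, hBS, hc.inj.ne AneB, hA, hB⟩
      ⟨e C, e D, hCS, hDS, hc.inj.ne CneD, hCD C vC5, hCD D vD5⟩ (e R) hR (hCD R rfl)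
    rintro rfl
    exact hnoACD ⟨l', hA, hCD C vC5, hCD D vD5⟩
  have hGS : e G ∈ S := by
    refine hS lAC lBD ?_ ⟨e A, e C, hAS, hCS, hc.inj.ne CneA.symm, hAC A rfl, hAC C vC1⟩
      ⟨e B, e D, hBS, hDS, hc.inj.ne DneB.symm, hBD B rfl, hBD D vD2⟩ (e G) (hAC G vG1)
      (hBD G vG2)
    rintro rfl
    exact hnoABC ⟨lAC, hAC A rfl, hBD B rfl, hAC C vC1⟩
  have hHS : e H ∈ S := by
    refine hS lAD lBC ?_ ⟨e A, e D, hAS, hDS, hc.inj.ne DneA.symm, hAD A rfl, hAD D vD1⟩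
      ⟨e B, e C, hBS, hCS, hc.inj.ne CneB.symm, hBC B rfl, hBC C vC2⟩ (e H) (hAD H vH1)
      (hBC H vH2)
    rintro rfl
    exact hnoABD ⟨lAD, hAD A rfl, hBC B rfl, hAD D vD1⟩
  obtain ⟨I1, hI1, hI1l⟩ := hc.parallel g1
  obtain ⟨I2, hI2, hI2l⟩ := hc.parallel g3
  obtain ⟨I3, hI3, hI3l⟩ := hc.parallel g2
  obtain ⟨I4, hI4, hI4l⟩ := hc.parallel g5
  have par : ∀ {t : K} (ht : Good L e t) {I : P},
      (∀ (m : K) (l : L), (∀ y : K, e (m + t * y, y) ∈ l) → I ∈ l) → ∀ (w : K × K) (l : L),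
      (∀ z : K × K, z.1 - t * z.2 = w.1 - t * w.2 → e z ∈ l) → I ∈ l := by
    intro t ht I hI w l hl
    refine hI (w.1 - t * w.2) l (fun y => hl _ ?_)
    simp only
    ring
  have RneG : R ≠ G := by
    intro h
    have h3 := (Prod.ext_iff.1 h).1
    simp only [hRd, hGd] at h3
    rw [eq_comm, div_eq_zero_iff] at h3
    rcases h3 with h3 | h3
    · exact hk (neg_eq_zero.1 h3)
    · exact h2 h3
  have RneH : R ≠ H := by
    intro h
    have h3 := (Prod.ext_iff.1 h).1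
    simp only [hRd, hHd] at h3
    rw [eq_comm, div_eq_zero_iff] at h3
    rcases h3 with h3 | h3
    · exact hk h3
    · exact h2 h3
  obtain ⟨lRH, hRH⟩ := g1.line R
  obtain ⟨lRG, hRG⟩ := g3.line R
  have hI1S : I1 ∈ S := by
    refine hS lAC lRH ?_ ⟨e A, e C, hAS, hCS, hc.inj.ne CneA.symm, hAC A rfl, hAC C vC1⟩
      ⟨e R, e H, hRS, hHS, hc.inj.ne RneH, hRH R rfl, hRH H vH3⟩ I1
      (par g1 hI1l A lAC hAC) (par g1 hI1l R lRH hRH)
    rintro rfl
    have := hc.exact2 g1 CneA (hAC C vC1) (hAC A rfl) vC1 (hRH R rfl)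
    rw [vC1] at this
    simp [hAd, hRd] at this
    exact hc1ne this
  have hI2S : I2 ∈ S := by
    refine hS lAD lRG ?_ ⟨e A, e D, hAS, hDS, hc.inj.ne DneA.symm, hAD A rfl, hAD D vD1⟩
      ⟨e R, e G, hRS, hGS, hc.inj.ne RneG, hRG R rfl, hRG G vG3⟩ I2
      (par g3 hI2l A lAD hAD) (par g3 hI2l R lRG hRG)
    rintro rfl
    have := hc.exact2 g3 DneA (hAD D vD1) (hAD A rfl) vD1 (hRG R rfl)
    rw [vD1] at this
    simp [hAd, hRd] at this
    exact hd1ne this
  have hI12 : I1 ≠ I2 := hc.inf_ne m13 g1 g3 hI1 hI1l hI2l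
  have hI3S : I3 ∈ S := hS'.inf_mem hc g2 hI1 hI2 hI12 hI1S hI2S hI3 hI3l CneB hCS hBS vC2
  have hI4S : I4 ∈ S := hS'.inf_mem hc g5 hI1 hI2 hI12 hI1S hI2S hI4 hI4l CneD hCS hDS
    (vC5.trans vD5.symm)
  have mu0 : ∀ E : Subfield K, (r + 1)⁻¹ ∈ E → E = ⊤ := by
    intro E hE
    apply hg E
    have h3 := E.inv_mem hE
    rw [inv_inv] at h3
    have h4 := E.sub_mem h3 E.one_mem
    rwa [add_sub_cancel_right] at h4
  have hall : ∀ z : K × K, e z ∈ S := by
    refine mix_top {z : K × K | e z ∈ S} c1 c2 d1 rho (r + 1)⁻¹ m12 m13 m32.symm m34 ?_ mu0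
      (hS'.mix hc m12 g1 g2 hI1 hI3 hI1S hI3S hI1l hI3l)
      (hS'.mix hc m13 g1 g3 hI1 hI2 hI1S hI2S hI1l hI2l)
      (hS'.mix hc m32 g3 g2 hI2 hI3 hI2S hI3S hI2l hI3l)
      (hS'.mix hc m34 g3 g5 hI2 hI4 hI2S hI4S hI2l hI4l) hAS hBS
    rw [n23, n14, n12, n34]
    field_simp
  exact fun x => hS'.univ hc hall hI1 hI2 hI12 hI1S hI2S x

end Pool.Agent.H61.Quad
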