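import Mathlib

/-!
Projective planes with an affine chart `K × K`: order, classical lines, parallel classes.
-/

set_option autoImplicit false

open Configuration Configuration.ProjectivePlane

namespace Pool.Agent.H61.Quad

variable {K P L : Type*} [Field K] [Membership P L] [ProjectivePlane P L]

/-- `e` is an affine chart of the plane with line at infinity `linf` -/
structure Chart (linf : L) (e : K × K → P) : Prop where
  inj : Function.Injective e
  ran : ∀ p : P, p ∉ linf ↔ p ∈ Set.range e

/-- all lines of slope `t` of `AG(2,K)` are lines of the plane -/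
def Good (L : Type*) [Membership P L] (e : K × K → P) (t : K) : Prop :=
  ∀ m : K, ∃ l : L, ∀ y : K, e (m + t * y, y) ∈ l

/-- the plane is generated by a quadrangle -/
def GenQ (P L : Type*) [Membership P L] : Prop :=
  ∃ a b c d : P,
    (¬ ∃ l : L, a ∈ l ∧ b ∈ l ∧ c ∈ l) ∧
    (¬ ∃ l : L, a ∈ l ∧ b ∈ l ∧ d ∈ l) ∧
    (¬ ∃ l : L, a ∈ l ∧ c ∈ l ∧ d ∈ l) ∧
    (¬ ∃ l : L, b ∈ l ∧ c ∈ l ∧ d ∈ l) ∧
    ∀ S : Set P, a ∈ S → b ∈ S → c ∈ S → d ∈ S →
      (∀ l m : L, l ≠ m →
        (∃ p q : P, p ∈ S ∧ q ∈ S ∧ p ≠ q ∧ p ∈ l ∧ q ∈ l) →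
        (∃ p q : P, p ∈ S ∧ q ∈ S ∧ p ≠ q ∧ p ∈ m ∧ q ∈ m) →
        ∀ x : P, x ∈ l → x ∈ m → x ∈ S) →
      ∀ x : P, x ∈ S

variable (P L) in
theorem finite_lines [Finite P] : Finite L := by
  apply Finite.of_injective (fun l : L => {p : P | p ∈ l})
  intro l m hlm
  by_contra h
  have h1 := HasPoints.mkPoint_ax (P := P) h
  set X : P := HasPoints.mkPoint h with hX
  obtain ⟨m', hm'⟩ := Nondegenerate.exists_line (L := L) X
  have h2 : l ≠ m' := by
    rintro rfl
    exact hm' h1.1
  have h3 := HasPoints.mkPoint_ax (P := P) h2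
  set Y : P := HasPoints.mkPoint h2 with hY
  have h4 : Y ∈ m := by
    have : Y ∈ {p : P | p ∈ l} := h3.1
    rw [show {p : P | p ∈ l} = {p : P | p ∈ m} from hlm] at this
    exact this
  rcases Nondegenerate.eq_or_eq h1.1 h3.1 h1.2 h4 with h5 | h5
  · rw [h5] at hm'
    exact hm' h3.2
  · exact h h5

variable {linf : L} {e : K × K → P}

theorem Chart.order_eq [Finite P] (hc : Chart linf e) : order P L = Nat.card K := by
  classical
  haveI := finite_lines P L
  haveI : Finite K := by
    have h1 : Finite (K × K) := Finite.of_injective e hc.inj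
    exact Finite.of_injective (fun x : K => (x, (0 : K))) (fun x y h => (Prod.ext_iff.1 h).1)
  cases nonempty_fintype P
  have h1 := card_points P L
  rw [← Nat.card_eq_fintype_card] at h1
  have h2 := pointCount_eq P linf
  unfold pointCount at h2
  have h3 : Nat.card P = Nat.card {p : P // p ∈ linf} + Nat.card {p : P // ¬ p ∈ linf} := by
    rw [← Nat.card_sum]
    exact (Nat.card_congr (Equiv.sumCompl (fun p : P => p ∈ linf))).symm
  have h4 : Nat.card {p : P // ¬ p ∈ linf} = Nat.card K ^ 2 := by
    have h5 : Nat.card {p : P // ¬ p ∈ linf} = Nat.card (Set.range e) :=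
      Nat.card_congr (Equiv.subtypeEquivRight hc.ran)
    rw [h5, Nat.card_range_of_injective hc.inj, Nat.card_prod, sq]
  rw [h4, h2, h1] at h3
  have h5 : order P L ^ 2 = Nat.card K ^ 2 := by omega
  exact Nat.pow_left_injective (by norm_num) h5

/-- a line that contains a classical line has no other affine points -/
theorem Chart.exact [Finite P] (hc : Chart linf e) {t m : K} {l : L}
    (hl : ∀ y : K, e (m + t * y, y) ∈ l) {x y : K} (hxy : e (x, y) ∈ l) : x = m + t * y := by
  classical
  haveI := finite_lines P L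
  haveI : Finite K := by
    have h1 : Finite (K × K) := Finite.of_injective e hc.inj
    exact Finite.of_injective (fun x : K => (x, (0 : K))) (fun x y h => (Prod.ext_iff.1 h).1)
  by_contra hne
  have hlinf : l ≠ linf := by
    rintro rfl
    exact (hc.ran _).2 ⟨_, rfl⟩ (hl 0)
  have h1 := HasPoints.mkPoint_ax (P := P) hlinf
  set I : P := HasPoints.mkPoint hlinf with hI
  have hIe : ∀ z, e z ≠ I := by
    intro z hz
    exact (hc.ran _).2 ⟨z, rfl⟩ (hz ▸ h1.2)
  let F : Option (Option K) → {p : P // p ∈ l} := fun o =>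
    match o with
    | none => ⟨I, h1.1⟩
    | some none => ⟨e (x, y), hxy⟩
    | some (some z) => ⟨e (m + t * z, z), hl z⟩
  have hF : Function.Injective F := by
    intro a b hab
    rcases a with _ | _ | a <;> rcases b with _ | _ | b
    · rfl
    · exact absurd (Subtype.ext_iff.1 hab).symm (hIe _)
    · exact absurd (Subtype.ext_iff.1 hab).symm (hIe _)
    · exact absurd (Subtype.ext_iff.1 hab) (hIe _)
    · rfl
    · have h2 := hc.inj (Subtype.ext_iff.1 hab)
      rw [Prod.mk.injEq] at h2
      exact absurd (by rw [h2.1, h2.2]) hne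
    · exact absurd (Subtype.ext_iff.1 hab) (hIe _)
    · have h2 := hc.inj (Subtype.ext_iff.1 hab)
      rw [Prod.mk.injEq] at h2
      exact absurd (by rw [← h2.1, ← h2.2]) hne
    · have h2 := hc.inj (Subtype.ext_iff.1 hab)
      rw [Prod.mk.injEq] at h2
      rw [h2.2]
  have h2 : Nat.card (Option (Option K)) ≤ Nat.card {p : P // p ∈ l} :=
    Nat.card_le_card_of_injective F hF
  have h3 := pointCount_eq P l
  unfold pointCount at h3
  rw [h3, hc.order_eq, Finite.card_option, Finite.card_option] at h2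
  omega

theorem line_unique {l m : L} {p q : P} (h : p ≠ q) (h1 : p ∈ l) (h2 : q ∈ l) (h3 : p ∈ m)
    (h4 : q ∈ m) : l = m :=
  (Nondegenerate.eq_or_eq h1 h2 h3 h4).resolve_left h

theorem Chart.ne_linf (hc : Chart linf e) {z : K × K} {l : L} (h : e z ∈ l) : l ≠ linf := by
  rintro rfl
  exact (hc.ran _).2 ⟨_, rfl⟩ h

theorem Chart.ne_of_mem (hc : Chart linf e) {z : K × K} {p : P} (h : p ∈ linf) : e z ≠ p := by
  intro h1
  exact (hc.ran _).2 ⟨z, rfl⟩ (h1 ▸ h)

/-- the lines of a good slope meet on the line at infinity -/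
theorem Chart.parallel [Finite P] (hc : Chart linf e) {t : K} (ht : Good L e t) :
    ∃ I : P, I ∈ linf ∧ ∀ (m : K) (l : L), (∀ y : K, e (m + t * y, y) ∈ l) → I ∈ l := by
  obtain ⟨l0, hl0⟩ := ht 0
  have h0 : l0 ≠ linf := hc.ne_linf (hl0 0)
  have h1 := HasPoints.mkPoint_ax (P := P) h0
  set I : P := HasPoints.mkPoint h0 with hI
  refine ⟨I, h1.2, fun m l hl => ?_⟩
  by_cases hll : l0 = l
  · rw [← hll]; exact h1.1
  · have h2 := HasPoints.mkPoint_ax (P := P) hll
    set J : P := HasPoints.mkPoint hll with hJ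
    by_cases hJinf : J ∈ linf
    · have : I = J := by
        rcases Nondegenerate.eq_or_eq h1.1 h2.1 h1.2 hJinf with h3 | h3
        · exact h3
        · exact absurd h3 h0
      rw [this]
      exact h2.2
    · exfalso
      obtain ⟨⟨x, y⟩, hz⟩ := (hc.ran J).1 hJinf
      rw [← hz] at h2
      have e1 := hc.exact hl0 h2.1
      have e2 := hc.exact hl h2.2
      have hm : m = 0 := by
        have : (0 : K) + t * y = m + t * y := by rw [← e1, ← e2]
        exact (add_right_cancel this).symm
      subst hm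
      exact hll (line_unique (fun h => by
        have := hc.inj h
        rw [Prod.mk.injEq] at this
        exact zero_ne_one this.2) (hl0 0) (hl0 1) (hl 0) (hl 1))

end Pool.Agent.H61.Quad
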