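import Mathlib

/-!
Counting in finite fields: the parameter of the quadrangle.
-/

set_option autoImplicit false

open Polynomial

namespace Pool.Agent.H61.Quad

variable {K : Type*} [Field K] [Fintype K] [DecidableEq K]

theorem quad_card (a b c : K) (h : ¬ (a = 0 ∧ b = 0 ∧ c = 0)) :
    (Finset.univ.filter (fun x : K => a * x ^ 2 + b * x + c = 0)).card ≤ 2 := by
  classical
  have hne : (C a * X ^ 2 + C b * X + C c : K[X]) ≠ 0 := by
    intro h0
    apply h
    have e0 := congrArg (fun f : K[X] => f.coeff 0) h0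
    have e1 := congrArg (fun f : K[X] => f.coeff 1) h0
    have e2 := congrArg (fun f : K[X] => f.coeff 2) h0
    simp [coeff_X, coeff_C] at e0 e1 e2
    exact ⟨e2, e1, e0⟩
  calc (Finset.univ.filter (fun x : K => a * x ^ 2 + b * x + c = 0)).card
      ≤ (C a * X ^ 2 + C b * X + C c : K[X]).roots.toFinset.card := by
        apply Finset.card_le_card
        intro x hx
        rw [Finset.mem_filter] at hx
        rw [Multiset.mem_toFinset, mem_roots hne, IsRoot.def]
        simp [hx.2]
    _ ≤ Multiset.card (C a * X ^ 2 + C b * X + C c : K[X]).roots := Multiset.toFinset_card_le _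
    _ ≤ (C a * X ^ 2 + C b * X + C c : K[X]).natDegree := card_roots' _
    _ ≤ 2 := natDegree_quadratic_le

theorem pow_fix_card (m : ℕ) (hm : 1 < m) :
    (Finset.univ.filter (fun x : K => x ^ m = x)).card ≤ m := by
  classical
  have hne : (X ^ m - X : K[X]) ≠ 0 := FiniteField.X_pow_card_sub_X_ne_zero K hm
  calc (Finset.univ.filter (fun x : K => x ^ m = x)).card
      ≤ (X ^ m - X : K[X]).roots.toFinset.card := by
        apply Finset.card_le_card
        intro x hx
        rw [Finset.mem_filter] at hx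
        rw [Multiset.mem_toFinset, mem_roots hne, IsRoot.def]
        simp [hx.2]
    _ ≤ Multiset.card (X ^ m - X : K[X]).roots := Multiset.toFinset_card_le _
    _ ≤ (X ^ m - X : K[X]).natDegree := card_roots' _
    _ = m := FiniteField.X_pow_card_sub_X_natDegree_eq K hm

theorem pow_one_card (m : ℕ) (hm : 0 < m) :
    (Finset.univ.filter (fun x : K => x ^ m = 1)).card ≤ m := by
  classical
  calc (Finset.univ.filter (fun x : K => x ^ m = 1)).card
      ≤ (nthRoots m (1 : K)).toFinset.card := by
        apply Finset.card_le_card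
        intro x hx
        rw [Finset.mem_filter] at hx
        rw [Multiset.mem_toFinset, mem_nthRoots hm]
        exact hx.2
    _ ≤ Multiset.card (nthRoots m (1 : K)) := Multiset.toFinset_card_le _
    _ ≤ m := card_nthRoots m 1

theorem pow_one_card' (m : ℕ) (hm : 0 < m) :
    (Finset.univ.filter (fun x : K => (x + 1) ^ m = 1)).card ≤ m := by
  classical
  refine le_trans ?_ (pow_one_card (K := K) m hm)
  apply Finset.card_le_card_of_injOn (fun x => x + 1)
  · intro x hx
    simp only [Finset.coe_filter, Finset.mem_univ, true_and, Set.mem_setOf_eq] at hx ⊢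
    exact hx
  · intro x _ y _ h
    exact add_right_cancel h

theorem trace_card (m : ℕ) (hm : 1 < m) :
    (Finset.univ.filter (fun x : K => x ^ m + x + 1 = 0)).card ≤ m := by
  classical
  have hdeg : (X ^ m + (X + C 1) : K[X]).natDegree = m := by
    rw [natDegree_add_eq_left_of_natDegree_lt]
    · exact natDegree_X_pow m
    · rw [natDegree_X_pow]
      refine lt_of_le_of_lt ?_ hm
      exact (natDegree_X_add_C (1 : K)).le
  have hne : (X ^ m + (X + C 1) : K[X]) ≠ 0 := by
    intro h
    rw [h, natDegree_zero] at hdeg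
    omega
  calc (Finset.univ.filter (fun x : K => x ^ m + x + 1 = 0)).card
      ≤ (X ^ m + (X + C 1) : K[X]).roots.toFinset.card := by
        apply Finset.card_le_card
        intro x hx
        rw [Finset.mem_filter] at hx
        rw [Multiset.mem_toFinset, mem_roots hne, IsRoot.def]
        simp only [eval_add, eval_pow, eval_X, eval_C]
        rw [← add_assoc]
        exact hx.2
    _ ≤ Multiset.card (X ^ m + (X + C 1) : K[X]).roots := Multiset.toFinset_card_le _
    _ ≤ (X ^ m + (X + C 1) : K[X]).natDegree := card_roots' _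
    _ = m := hdeg

/-- elements of small proper subfields -/
def Small (K : Type*) [Field K] [Fintype K] [DecidableEq K] (p j : ℕ) : Finset K :=
  (Finset.Icc 1 j).biUnion fun d => Finset.univ.filter (fun x : K => x ^ (p ^ d) = x)

theorem sum_geo (p : ℕ) (hp : 2 ≤ p) (j : ℕ) :
    ∑ d ∈ Finset.Icc 1 j, p ^ d + 2 ≤ 2 * p ^ j := by
  induction j with
  | zero => simp
  | succ j ih =>
    rw [Finset.sum_Icc_succ_top (by omega)]
    have h1 : 2 * p ^ j ≤ p ^ (j + 1) := by
      rw [pow_succ, mul_comm]
      exact Nat.mul_le_mul_left _ hp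
    omega

theorem small_card (p : ℕ) (hp : 2 ≤ p) (j : ℕ) : (Small K p j).card + 2 ≤ 2 * p ^ j := by
  classical
  refine le_trans ?_ (sum_geo p hp j)
  apply Nat.add_le_add_right
  refine le_trans Finset.card_biUnion_le (Finset.sum_le_sum fun d hd => ?_)
  rw [Finset.mem_Icc] at hd
  exact pow_fix_card _ (Nat.one_lt_pow (by omega) (by omega))

/-- an element of no small proper subfield generates the field -/
theorem gen_of_small (p h : ℕ) (hp : p.Prime) (hK : Fintype.card K = p ^ h) (r : K)
    (hr : ∀ d, 1 ≤ d → 2 * d ≤ h → r ^ (p ^ d) ≠ r) : ∀ E : Subfield K, r ∈ E → E = ⊤ := by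
  classical
  intro E hE
  by_contra hne
  have h1 : Nat.card K = Nat.card E ^ Module.finrank E K := Module.natCard_eq_pow_finrank
  rw [Nat.card_eq_fintype_card, hK] at h1
  have h2 : 0 < Module.finrank E K := Module.finrank_pos
  have h3 : Nat.card E ∣ p ^ h := by
    rw [h1]
    exact dvd_pow_self _ h2.ne'
  obtain ⟨d, hd, hd2⟩ := (Nat.dvd_prime_pow hp).1 h3
  have h4 : 1 < Nat.card E := Finite.one_lt_card
  have h5 : 1 ≤ d := by
    rcases Nat.eq_zero_or_pos d with h0 | h0
    · rw [h0, pow_zero] at hd2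
      omega
    · exact h0
  rw [hd2, ← pow_mul] at h1
  have h6 : h = d * Module.finrank E K := Nat.pow_right_injective hp.two_le h1
  have h7 : Module.finrank E K ≠ 1 := by
    intro h8
    apply hne
    rw [h8, mul_one] at h6
    have h9 : Nat.card E = Nat.card K := by
      rw [hd2, Nat.card_eq_fintype_card, hK, h6]
    have h10 : (E : Set K) = Set.univ := by
      apply Set.eq_of_subset_of_ncard_le (Set.subset_univ _)
      · rw [Set.ncard_univ, ← h9]
        exact (Nat.card_coe_set_eq (E : Set K)).le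
    rw [eq_top_iff]
    intro x _
    have : x ∈ (E : Set K) := by rw [h10]; trivial
    exact this
  have h8 : 2 * d ≤ h := by
    rw [h6, mul_comm]
    exact Nat.mul_le_mul_left _ (by omega)
  apply hr d h5 h8
  letI : Fintype E := Fintype.ofFinite E
  have h9 := FiniteField.pow_card (⟨r, hE⟩ : E)
  rw [← Nat.card_eq_fintype_card, hd2] at h9
  exact Subtype.ext_iff.1 h9

/-- all conditions on the parameter except the generation -/
def LamOk (good : K → Prop) (r : K) : Prop :=
  r ≠ 0 ∧ r + 1 ≠ 0 ∧ 2 * r + 1 ≠ 0 ∧ r ^ 2 + r + 1 ≠ 0 ∧ 2 * r ^ 2 + 2 * r + 1 ≠ 0 ∧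
    (∀ E : Subfield K, r ∈ E → E = ⊤) ∧
    good (-(r ^ 2 + r + 1) / (r + 1)) ∧ good (r - 1) ∧ good ((r ^ 2 + r + 1) / r) ∧
    good (-(r + 2)) ∧ good (-(r ^ 2 + r + 1) / (2 * r ^ 2 + 2 * r + 1))

theorem exists_lam (B : Finset K)
    (hB : 8 * B.card + 2 * Nat.sqrt (Fintype.card K) + 7 < Fintype.card K) :
    ∃ r : K, LamOk (fun s => s ∉ B) r := by
  classical
  obtain ⟨p, hchar, h, hp, hK⟩ := FiniteField.card' K
  let S0 : Finset K := Small K p ((h : ℕ) / 2)
  let S1 : Finset K := {0, -1}
  let S2 : Finset K := Finset.univ.filter (fun x : K => (0 : K) * x ^ 2 + 2 * x + 1 = 0)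
  let S3 : Finset K := Finset.univ.filter (fun x : K => (1 : K) * x ^ 2 + 1 * x + 1 = 0)
  let S4 : Finset K := Finset.univ.filter (fun x : K => (2 : K) * x ^ 2 + 2 * x + 1 = 0)
  let T : K → Finset K := fun s => {s + 1} ∪ ({-(s + 2)} ∪
    (Finset.univ.filter (fun x : K => (1 : K) * x ^ 2 + (1 + s) * x + (1 + s) = 0) ∪
    (Finset.univ.filter (fun x : K => (1 : K) * x ^ 2 + (1 - s) * x + 1 = 0) ∪
    Finset.univ.filter (fun x : K => (1 + 2 * s) * x ^ 2 + (1 + 2 * s) * x + (1 + s) = 0))))
  have hT : ∀ s ∈ B, (T s).card ≤ 8 := by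
    intro s _
    have c3 := quad_card (1 : K) (1 + s) (1 + s) (fun h => one_ne_zero h.1)
    have c4 := quad_card (1 : K) (1 - s) 1 (fun h => one_ne_zero h.1)
    have c5 := quad_card (1 + 2 * s) (1 + 2 * s) (1 + s) (by
      rintro ⟨h1, -, h3⟩
      apply one_ne_zero (α := K)
      linear_combination 2 * h3 - h1)
    refine le_trans (Finset.card_union_le _ _) ?_
    have u1 := Finset.card_union_le ({-(s + 2)} : Finset K)
      (Finset.univ.filter (fun x : K => (1 : K) * x ^ 2 + (1 + s) * x + (1 + s) = 0) ∪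
      (Finset.univ.filter (fun x : K => (1 : K) * x ^ 2 + (1 - s) * x + 1 = 0) ∪
      Finset.univ.filter (fun x : K => (1 + 2 * s) * x ^ 2 + (1 + 2 * s) * x + (1 + s) = 0)))
    have u2 := Finset.card_union_le
      (Finset.univ.filter (fun x : K => (1 : K) * x ^ 2 + (1 + s) * x + (1 + s) = 0))
      (Finset.univ.filter (fun x : K => (1 : K) * x ^ 2 + (1 - s) * x + 1 = 0) ∪
      Finset.univ.filter (fun x : K => (1 + 2 * s) * x ^ 2 + (1 + 2 * s) * x + (1 + s) = 0))
    have u3 := Finset.card_union_le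
      (Finset.univ.filter (fun x : K => (1 : K) * x ^ 2 + (1 - s) * x + 1 = 0))
      (Finset.univ.filter (fun x : K => (1 + 2 * s) * x ^ 2 + (1 + 2 * s) * x + (1 + s) = 0))
    rw [Finset.card_singleton] at u1 ⊢
    omega
  have hTB := Finset.card_biUnion_le_card_mul B T 8 hT
  have c0 := small_card (K := K) p hp.two_le ((h : ℕ) / 2)
  have c1 : S1.card ≤ 2 := Finset.card_le_two
  have c2 : S2.card ≤ 1 := by
    rw [Finset.card_le_one]
    intro a ha b hb
    simp only [S2, Finset.mem_filter, Finset.mem_univ, true_and] at ha hb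
    have h2 : (2 : K) ≠ 0 := by
      intro h2
      rw [h2] at ha
      simp at ha
    have h3 : (2 : K) * (a - b) = 0 := by linear_combination ha - hb
    rcases mul_eq_zero.1 h3 with h4 | h4
    · exact absurd h4 h2
    · exact sub_eq_zero.1 h4
  have c3 : S3.card ≤ 2 := quad_card _ _ _ (fun h => one_ne_zero h.1)
  have c4 : S4.card ≤ 2 := quad_card _ _ _ (fun h => one_ne_zero h.2.2)
  have csqrt : p ^ ((h : ℕ) / 2) ≤ Nat.sqrt (Fintype.card K) := by
    rw [Nat.le_sqrt', hK, ← pow_mul]
    exact Nat.pow_le_pow_right hp.pos (by omega)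
  let W : Finset K := S0 ∪ (S1 ∪ (S2 ∪ (S3 ∪ (S4 ∪ B.biUnion T))))
  have hW : W.card < Fintype.card K := by
    have w1 := Finset.card_union_le S0 (S1 ∪ (S2 ∪ (S3 ∪ (S4 ∪ B.biUnion T))))
    have w2 := Finset.card_union_le S1 (S2 ∪ (S3 ∪ (S4 ∪ B.biUnion T)))
    have w3 := Finset.card_union_le S2 (S3 ∪ (S4 ∪ B.biUnion T))
    have w4 := Finset.card_union_le S3 (S4 ∪ B.biUnion T)
    have w5 := Finset.card_union_le S4 (B.biUnion T)
    have w0 : S0.card + 2 ≤ 2 * p ^ ((h : ℕ) / 2) := c0
    have w6 : W.card ≤ _ := w1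
    omega
  obtain ⟨r, hr⟩ : ∃ r : K, r ∉ W := by
    by_contra hcon
    push Not at hcon
    have : W = Finset.univ := Finset.eq_univ_iff_forall.2 hcon
    rw [this, Finset.card_univ] at hW
    exact lt_irrefl _ hW
  simp only [W, Finset.mem_union, not_or] at hr
  obtain ⟨r0, r1, r2, r3, r4, r5⟩ := hr
  have q0 : r ≠ 0 := by
    rintro rfl
    exact r1 (by simp [S1])
  have q1 : r + 1 ≠ 0 := by
    intro h1
    apply r1
    have : r = -1 := by linear_combination h1
    simp [S1, this]
  have q2 : 2 * r + 1 ≠ 0 := by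
    intro h1
    apply r2
    simp only [S2, Finset.mem_filter, Finset.mem_univ, true_and]
    linear_combination h1
  have q3 : r ^ 2 + r + 1 ≠ 0 := by
    intro h1
    apply r3
    simp only [S3, Finset.mem_filter, Finset.mem_univ, true_and]
    linear_combination h1
  have q4 : 2 * r ^ 2 + 2 * r + 1 ≠ 0 := by
    intro h1
    apply r4
    simp only [S4, Finset.mem_filter, Finset.mem_univ, true_and]
    linear_combination h1
  have q5 : ∀ s ∈ B, r ∉ T s := by
    intro s hs hrs
    exact r5 (Finset.mem_biUnion.2 ⟨s, hs, hrs⟩)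
  refine ⟨r, q0, q1, q2, q3, q4, ?_, ?_, ?_, ?_, ?_, ?_⟩
  · apply gen_of_small p h hp hK
    intro d hd1 hd2 hrd
    apply r0
    simp only [S0, Small, Finset.mem_biUnion, Finset.mem_Icc, Finset.mem_filter,
      Finset.mem_univ, true_and]
    exact ⟨d, ⟨hd1, by omega⟩, hrd⟩
  · intro hs
    apply q5 _ hs
    simp only [T, Finset.mem_union, Finset.mem_singleton, Finset.mem_filter, Finset.mem_univ,
      true_and]
    right; right; left
    field_simp
    ring
  · intro hs
    apply q5 _ hs
    simp only [T, Finset.mem_union, Finset.mem_singleton, Finset.mem_filter, Finset.mem_univ,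
      true_and]
    left
    ring
  · intro hs
    apply q5 _ hs
    simp only [T, Finset.mem_union, Finset.mem_singleton, Finset.mem_filter, Finset.mem_univ,
      true_and]
    right; right; right; left
    field_simp
    ring
  · intro hs
    apply q5 _ hs
    simp only [T, Finset.mem_union, Finset.mem_singleton, Finset.mem_filter, Finset.mem_univ,
      true_and]
    right; left
    ring
  · intro hs
    apply q5 _ hs
    simp only [T, Finset.mem_union, Finset.mem_singleton, Finset.mem_filter, Finset.mem_univ,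
      true_and]
    right; right; right; right
    set N := 2 * r ^ 2 + 2 * r + 1 with hN
    field_simp
    rw [hN]
    ring

omit [DecidableEq K] in
/-- raising to the power `q` is additive on a field with `q ^ 2` elements -/
theorem frob_add (q : ℕ) (hK : Fintype.card K = q ^ 2) (x y : K) :
    (x + y) ^ q = x ^ q + y ^ q := by
  obtain ⟨p, hchar, h, hp, hK'⟩ := FiniteField.card' K
  have hqp : q ∣ p ^ (h : ℕ) := by
    rw [← hK', hK]
    exact dvd_pow_self _ two_ne_zero
  obtain ⟨j, hj, hj2⟩ := (Nat.dvd_prime_pow hp).1 hqp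
  haveI : Fact p.Prime := ⟨hp⟩
  rw [hj2]
  exact add_pow_char_pow x y p j

/-- the parameter for Hall planes -/
theorem exists_lam_hall (q : ℕ) (hq : 5 ≤ q) (hK : Fintype.card K = q ^ 2) :
    ∃ r : K, LamOk (fun s => s ^ q ≠ s) r := by
  classical
  obtain ⟨p, hchar, h, hp, hK'⟩ := FiniteField.card' K
  have hqp : q ∣ p ^ (h : ℕ) := by
    rw [← hK', hK]
    exact dvd_pow_self _ two_ne_zero
  obtain ⟨j, hj, hj2⟩ := (Nat.dvd_prime_pow hp).1 hqp
  have hh : (h : ℕ) = 2 * j := by
    rw [hK, hj2, ← pow_mul] at hK'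
    have := Nat.pow_right_injective hp.two_le hK'
    omega
  have hj0 : 1 ≤ j := by
    rcases Nat.eq_zero_or_pos j with h0 | h0
    · rw [h0, pow_zero] at hj2
      omega
    · exact h0
  haveI : Fact p.Prime := ⟨hp⟩
  -- the Frobenius automorphism
  have hadd : ∀ x y : K, (x + y) ^ q = x ^ q + y ^ q := frob_add q hK
  have hone : (1 : K) ^ q = 1 := one_pow q
  let S0 : Finset K := Small K p (j - 1)
  let S1 : Finset K := Finset.univ.filter (fun x : K => x ^ q = x)
  let S2 : Finset K := Finset.univ.filter (fun x : K => x ^ (q + 1) = 1)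
  let S3 : Finset K := Finset.univ.filter (fun x : K => (x + 1) ^ (q + 1) = 1)
  let S4 : Finset K := Finset.univ.filter (fun x : K => x ^ q + x + 1 = 0)
  have c0 : S0.card + 2 ≤ 2 * p ^ (j - 1) := small_card (K := K) p hp.two_le (j - 1)
  have c1 : S1.card ≤ q := pow_fix_card q (by omega)
  have c2 : S2.card ≤ q + 1 := pow_one_card (q + 1) (by omega)
  have c3 : S3.card ≤ q + 1 := pow_one_card' (q + 1) (by omega)
  have c4 : S4.card ≤ q := trace_card q (by omega)
  have c5 : 2 * p ^ (j - 1) ≤ q := by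
    have h1 : p ^ j = p ^ (j - 1) * p := by
      rw [← pow_succ]
      congr 1
      omega
    rw [hj2, h1, mul_comm]
    exact Nat.mul_le_mul_left _ hp.two_le
  let W : Finset K := S0 ∪ (S1 ∪ (S2 ∪ (S3 ∪ S4)))
  have hW : W.card < Fintype.card K := by
    have w1 := Finset.card_union_le S0 (S1 ∪ (S2 ∪ (S3 ∪ S4)))
    have w2 := Finset.card_union_le S1 (S2 ∪ (S3 ∪ S4))
    have w3 := Finset.card_union_le S2 (S3 ∪ S4)
    have w4 := Finset.card_union_le S3 S4
    have w6 : W.card ≤ _ := w1
    rw [hK]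
    rcases Nat.lt_or_ge q 6 with h6 | h6
    · -- q = 5
      have h5 : q = 5 := by omega
      have hj1 : j = 1 := by
        rw [h5] at hj2
        have h51 : p ∣ 5 := by
          rw [hj2]
          exact dvd_pow_self _ (by omega)
        have h52 : p = 5 := (Nat.prime_dvd_prime_iff_eq hp (by norm_num)).1 h51
        rw [h52] at hj2
        have h53 : (5 : ℕ) ^ 1 = 5 ^ j := by simpa using hj2
        exact (Nat.pow_right_injective (le_refl 2 |>.trans (by norm_num)) h53).symm
      have h54 : p ^ (j - 1) = 1 := by rw [hj1]; simp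
      rw [h54] at c0
      have h55 : q ^ 2 = 25 := by rw [h5]; norm_num
      rw [h55]
      omega
    · have : 6 * q ≤ q ^ 2 := by
        rw [sq]
        exact Nat.mul_le_mul_right _ h6
      omega
  obtain ⟨r, hr⟩ : ∃ r : K, r ∉ W := by
    by_contra hcon
    push Not at hcon
    have : W = Finset.univ := Finset.eq_univ_iff_forall.2 hcon
    rw [this, Finset.card_univ] at hW
    exact lt_irrefl _ hW
  simp only [W, S0, S1, S2, S3, S4, Finset.mem_union, not_or, Finset.mem_filter, Finset.mem_univ,
    true_and] at hr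
  obtain ⟨r0, r1, r2, r3, r4⟩ := hr
  set s : K := r ^ q with hs
  have hrs : s - r ≠ 0 := sub_ne_zero.2 r1
  have r2' : s * r - 1 ≠ 0 := by
    intro h1
    apply r2
    rw [pow_succ, ← hs]
    linear_combination h1
  have hr1 : (r + 1) ^ q = s + 1 := by rw [hadd, hone]
  have r3' : (s + 1) * (r + 1) - 1 ≠ 0 := by
    intro h1
    apply r3
    rw [pow_succ, hr1]
    linear_combination h1
  -- the power of the constants
  have h2q : (2 : K) ^ q = 2 := by
    have : (2 : K) = 1 + 1 := by norm_num
    rw [this, hadd, hone]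
  have hneg : ∀ x : K, (-x) ^ q = -(x ^ q) := by
    intro x
    have h1 := hadd x (-x)
    rw [add_neg_cancel, zero_pow (by omega)] at h1
    linear_combination -h1
  have hsq : (r ^ 2) ^ q = s ^ 2 := by rw [← pow_mul, mul_comm, pow_mul]
  have hk : (r ^ 2 + r + 1) ^ q = s ^ 2 + s + 1 := by
    rw [hadd, hadd, hone, hsq]
  have hN : (2 * r ^ 2 + 2 * r + 1) ^ q = 2 * s ^ 2 + 2 * s + 1 := by
    rw [hadd, hadd, hone, mul_pow, mul_pow, h2q, hsq]
  have z0 : (0 : K) ^ q = 0 := zero_pow (by omega)
  have q0 : r ≠ 0 := by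
    intro h0
    apply r1
    rw [hs, h0, z0]
  have q1 : r + 1 ≠ 0 := by
    intro h0
    have h1 := hr1
    rw [h0, z0] at h1
    apply hrs
    linear_combination -h1 - h0
  have q2 : 2 * r + 1 ≠ 0 := by
    intro h0
    have h1 : (2 * r + 1) ^ q = 2 * s + 1 := by rw [hadd, mul_pow, h2q, hone]
    rw [h0, z0] at h1
    have h3 : (2 : K) * (s - r) = 0 := by linear_combination -h1 - h0
    rcases mul_eq_zero.1 h3 with h4 | h4
    · rw [h4] at h0
      simp at h0
    · exact hrs h4
  have q3 : r ^ 2 + r + 1 ≠ 0 := by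
    intro h0
    have h1 := hk
    rw [h0, z0] at h1
    have h3 : (s - r) * (s + r + 1) = 0 := by linear_combination -h1 - h0
    exact (mul_ne_zero hrs r4) h3
  have q4 : 2 * r ^ 2 + 2 * r + 1 ≠ 0 := by
    intro h0
    have h1 := hN
    rw [h0, z0] at h1
    have h3 : 2 * ((s - r) * (s + r + 1)) = 0 := by linear_combination -h1 - h0
    rcases mul_eq_zero.1 h3 with h4 | h4
    · rw [h4] at h0
      simp at h0
    · exact (mul_ne_zero hrs r4) h4
  refine ⟨r, q0, q1, q2, q3, q4, ?_, ?_, ?_, ?_, ?_, ?_⟩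
  · apply gen_of_small p h hp hK'
    intro d hd1 hd2 hrd
    rcases Nat.lt_or_ge d j with hdj | hdj
    · apply r0
      simp only [Small, Finset.mem_biUnion, Finset.mem_Icc, Finset.mem_filter,
        Finset.mem_univ, true_and]
      exact ⟨d, ⟨hd1, by omega⟩, hrd⟩
    · have : d = j := by omega
      rw [this, ← hj2] at hrd
      exact r1 hrd
  · intro h1
    have sq1 : s + 1 ≠ 0 := by
      rw [← hr1]
      exact pow_ne_zero _ q1
    rw [div_pow, hneg, hk, hr1, div_eq_div_iff sq1 q1] at h1
    apply mul_ne_zero hrs r3'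
    linear_combination -h1
  · intro h1
    rw [sub_eq_add_neg, hadd, hneg, hone] at h1
    apply hrs
    linear_combination h1
  · intro h1
    have sq0 : s ≠ 0 := pow_ne_zero _ q0
    rw [div_pow, hk, ← hs, div_eq_div_iff sq0 q0] at h1
    apply mul_ne_zero hrs r2'
    linear_combination h1
  · intro h1
    rw [hneg, hadd, h2q] at h1
    apply hrs
    linear_combination -h1
  · intro h1
    have sq4 : 2 * s ^ 2 + 2 * s + 1 ≠ 0 := by
      rw [← hN]
      exact pow_ne_zero _ q4
    rw [div_pow, hneg, hk, hN, div_eq_div_iff sq4 q4] at h1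
    apply mul_ne_zero hrs r4
    linear_combination h1

end Pool.Agent.H61.Quad
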