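import Pool.Agent.H61.Quad.Core
import Pool.Agent.H61.Quad.Lam

/-!
Change of chart and the final theorem.
-/

set_option autoImplicit false

open Configuration Configuration.ProjectivePlane

namespace Pool.Agent.H61.Quad

variable {K P L : Type*} [Field K] [Membership P L] [ProjectivePlane P L]
variable {linf : L} {e : K × K → P}

/-- the chart with origin `a` and basis `b - a`, `c - a` -/
def chg (e : K × K → P) (a b c : K × K) (z : K × K) : P :=
  e (a.1 + z.1 * (b.1 - a.1) + z.2 * (c.1 - a.1), a.2 + z.1 * (b.2 - a.2) + z.2 * (c.2 - a.2))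

theorem Chart.chg (hc : Chart linf e) {a b c : K × K}
    (hdet : (b.1 - a.1) * (c.2 - a.2) ≠ (b.2 - a.2) * (c.1 - a.1)) :
    Chart linf (chg e a b c) := by
  have hd : (b.1 - a.1) * (c.2 - a.2) - (b.2 - a.2) * (c.1 - a.1) ≠ 0 := sub_ne_zero.2 hdet
  constructor
  · intro z z' h
    have h1 := hc.inj h
    rw [Prod.mk.injEq] at h1
    obtain ⟨h1, h2⟩ := h1
    have e1 : ((b.1 - a.1) * (c.2 - a.2) - (b.2 - a.2) * (c.1 - a.1)) * (z.1 - z'.1) = 0 := by
      linear_combination (c.2 - a.2) * h1 - (c.1 - a.1) * h2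
    have e2 : ((b.1 - a.1) * (c.2 - a.2) - (b.2 - a.2) * (c.1 - a.1)) * (z.2 - z'.2) = 0 := by
      linear_combination (b.1 - a.1) * h2 - (b.2 - a.2) * h1
    ext
    · exact sub_eq_zero.1 ((mul_eq_zero.1 e1).resolve_left hd)
    · exact sub_eq_zero.1 ((mul_eq_zero.1 e2).resolve_left hd)
  · intro p
    rw [hc.ran p]
    constructor
    · rintro ⟨w, rfl⟩
      set d := (b.1 - a.1) * (c.2 - a.2) - (b.2 - a.2) * (c.1 - a.1) with hdd
      refine ⟨(((w.1 - a.1) * (c.2 - a.2) - (w.2 - a.2) * (c.1 - a.1)) / d,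
        ((b.1 - a.1) * (w.2 - a.2) - (b.2 - a.2) * (w.1 - a.1)) / d), ?_⟩
      unfold Quad.chg
      congr 1
      ext
      · simp only
        field_simp
        rw [hdd]
        ring
      · simp only
        field_simp
        rw [hdd]
        ring
    · rintro ⟨z, rfl⟩
      exact ⟨_, rfl⟩

theorem good_chg {B : Set K} (hB : ∀ t : K, t ∉ B → Good L e t) (a b c : K × K) {s : K}
    (h2 : s * (b.2 - a.2) + (c.2 - a.2) ≠ 0)
    (hs : (s * (b.1 - a.1) + (c.1 - a.1)) / (s * (b.2 - a.2) + (c.2 - a.2)) ∉ B) :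
    Good L (chg e a b c) s := by
  intro m
  set w1 := s * (b.1 - a.1) + (c.1 - a.1) with hw1
  set w2 := s * (b.2 - a.2) + (c.2 - a.2) with hw2
  obtain ⟨l, hl⟩ := hB _ hs (a.1 + m * (b.1 - a.1) - w1 / w2 * (a.2 + m * (b.2 - a.2)))
  refine ⟨l, fun y => ?_⟩
  have h3 := hl (a.2 + (m + s * y) * (b.2 - a.2) + y * (c.2 - a.2))
  unfold chg
  convert h3 using 3
  have h4 : (a.2 + (m + s * y) * (b.2 - a.2) + y * (c.2 - a.2)) =
      (a.2 + m * (b.2 - a.2)) + y * w2 := by
    rw [hw2]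
    ring
  have h5 : a.1 + (m + s * y) * (b.1 - a.1) + y * (c.1 - a.1) =
      (a.1 + m * (b.1 - a.1)) + y * w1 := by
    rw [hw1]
    ring
  simp only
  rw [h4, h5]
  field_simp
  ring

/-- from a good parameter to the generating quadrangle -/
theorem of_lam [Finite P] [Finite K] (hc : Chart linf e) (l' : L) {a b c : K × K}
    (hdet : (b.1 - a.1) * (c.2 - a.2) ≠ (b.2 - a.2) * (c.1 - a.1))
    (ha : e a ∈ l') (hb : e b ∈ l') (hcc : e c ∈ l') {good : K → Prop}
    (hgood : ∀ s, good s → Good L (chg e a b c) s) (r : K) (hr : LamOk good r) : GenQ P L := by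
  obtain ⟨q0, q1, q2, q3, q4, q5, g1, g2, g3, g4, g5⟩ := hr
  refine core (hc.chg hdet) l' ?_ ?_ ?_ r q0 q1 q2 q3 q4 q5 (hgood _ g1) (hgood _ g2)
    (hgood _ g3) (hgood _ g4) (hgood _ g5)
  · unfold chg; simpa using ha
  · unfold chg; simpa using hb
  · unfold chg; simpa using hcc

/-- few exceptional slopes -/
theorem main_few [Finite P] [Finite K] (hc : Chart linf e) (B : Set K)
    (hB : ∀ t : K, t ∉ B → Good L e t) (l' : L) {a b c : K × K}
    (hdet : (b.1 - a.1) * (c.2 - a.2) ≠ (b.2 - a.2) * (c.1 - a.1))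
    (ha : e a ∈ l') (hb : e b ∈ l') (hcc : e c ∈ l')
    (hn : 8 * (Nat.card B + 1) + 2 * Nat.sqrt (Nat.card K) + 7 < Nat.card K) : GenQ P L := by
  classical
  cases nonempty_fintype K
  let Bad : Finset K := Finset.univ.filter (fun s => s * (b.2 - a.2) + (c.2 - a.2) = 0 ∨
    (s * (b.1 - a.1) + (c.1 - a.1)) / (s * (b.2 - a.2) + (c.2 - a.2)) ∈ B)
  have hcard : Bad.card ≤ Nat.card B + 1 := by
    have hd : (b.1 - a.1) * (c.2 - a.2) - (b.2 - a.2) * (c.1 - a.1) ≠ 0 := sub_ne_zero.2 hdet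
    let f : Bad → Option B := fun s =>
      if h : (s : K) * (b.2 - a.2) + (c.2 - a.2) = 0 then none
      else some ⟨((s : K) * (b.1 - a.1) + (c.1 - a.1)) / ((s : K) * (b.2 - a.2) + (c.2 - a.2)),
        ((Finset.mem_filter.1 s.2).2).resolve_left h⟩
    have hf : Function.Injective f := by
      rintro ⟨s, hs⟩ ⟨t, ht⟩ hst
      by_cases h1 : s * (b.2 - a.2) + (c.2 - a.2) = 0 <;>
        by_cases h2 : t * (b.2 - a.2) + (c.2 - a.2) = 0
      · have h3 : (s - t) * (b.2 - a.2) = 0 := by linear_combination h1 - h2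
        rcases mul_eq_zero.1 h3 with h4 | h4
        · exact Subtype.ext (sub_eq_zero.1 h4)
        · exfalso
          apply hd
          rw [h4] at h1 ⊢
          have h5 : c.2 - a.2 = 0 := by simpa using h1
          rw [h5]
          ring
      · simp [f, h1, h2] at hst
      · simp [f, h1, h2] at hst
      · simp only [f, h1, h2, dite_false, Option.some.injEq, Subtype.mk.injEq] at hst
        rw [div_eq_div_iff h1 h2] at hst
        have h3 : (s - t) * ((b.1 - a.1) * (c.2 - a.2) - (b.2 - a.2) * (c.1 - a.1)) = 0 := by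
          linear_combination hst
        exact Subtype.ext (sub_eq_zero.1 ((mul_eq_zero.1 h3).resolve_right hd))
    have h1 := Nat.card_le_card_of_injective f hf
    rw [Finite.card_option, Nat.card_eq_fintype_card, Fintype.card_coe] at h1
    exact h1
  rw [Nat.card_eq_fintype_card (α := K)] at hn
  obtain ⟨r, hr⟩ := exists_lam Bad (by omega)
  refine of_lam hc l' hdet ha hb hcc (fun s hs => ?_) r hr
  rw [Finset.mem_filter, not_and_or, not_or] at hs
  rcases hs with hs | hs
  · exact absurd (Finset.mem_univ _) hs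
  · exact good_chg hB a b c hs.1 hs.2

/-- a direction of a nonclassical line is exceptional -/
theorem dir_bad [Finite P] (hc : Chart linf e) {B : Set K}
    (hB : ∀ t : K, t ∉ B → Good L e t) {l : L} {a b c : K × K} (ha : e a ∈ l) (hb : e b ∈ l)
    (hcc : e c ∈ l) (hdet : (b.1 - a.1) * (c.2 - a.2) ≠ (b.2 - a.2) * (c.1 - a.1)) :
    b.2 - a.2 = 0 ∨ (b.1 - a.1) / (b.2 - a.2) ∈ B := by
  by_contra hcon
  push Not at hcon
  obtain ⟨h1, h2⟩ := hcon
  have hne : a ≠ b := by
    rintro rfl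
    simp at h1
  have h3 := hc.exact2 (hB _ h2) hne ha hb (by field_simp; ring) hcc
  apply hdet
  have h4 : (c.1 - a.1) = (b.1 - a.1) / (b.2 - a.2) * (c.2 - a.2) := by linear_combination h3
  rw [h4]
  field_simp

/-- the exceptional slopes form the subfield of index two -/
theorem main_hall [Finite P] [Finite K] (hc : Chart linf e) (q : ℕ) (hq : 5 ≤ q)
    (hK : Nat.card K = q ^ 2)
    (hB : ∀ t : K, t ^ q ≠ t → Good L e t) (l' : L) {a b c : K × K}
    (hdet : (b.1 - a.1) * (c.2 - a.2) ≠ (b.2 - a.2) * (c.1 - a.1))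
    (ha : e a ∈ l') (hb : e b ∈ l') (hcc : e c ∈ l') : GenQ P L := by
  classical
  cases nonempty_fintype K
  rw [Nat.card_eq_fintype_card] at hK
  obtain ⟨r, hr⟩ := exists_lam_hall q hq hK
  refine of_lam hc l' hdet ha hb hcc (fun s hs => ?_) r hr
  have hadd : ∀ x y : K, (x + y) ^ q = x ^ q + y ^ q := frob_add q hK
  have hz : (0 : K) ^ q = 0 := zero_pow (by omega)
  have hneg : ∀ x : K, (-x) ^ q = -(x ^ q) := by
    intro x
    have h1 := hadd x (-x)
    rw [add_neg_cancel, hz] at h1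
    linear_combination -h1
  have hsub : ∀ x y : K, (x - y) ^ q = x ^ q - y ^ q := by
    intro x y
    rw [sub_eq_add_neg, hadd, hneg, sub_eq_add_neg]
  have hB' : ∀ t : K, t ∉ {t : K | t ^ q = t} → Good L e t := fun t ht => hB t ht
  -- rationality of directions
  have rat : ∀ x y : K, (y = 0 ∨ x / y ∈ {t : K | t ^ q = t}) → x * y ^ q = y * x ^ q := by
    intro x y h
    rcases h with h | h
    · rw [h, hz]; ring
    · by_cases hy : y = 0
      · rw [hy, hz]; ring
      · have h1 : (x / y) ^ q = x / y := h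
        rw [div_pow, div_eq_div_iff (pow_ne_zero _ hy) hy] at h1
        linear_combination -h1
  set u1 := b.1 - a.1 with hu1
  set u2 := b.2 - a.2 with hu2
  set v1 := c.1 - a.1 with hv1
  set v2 := c.2 - a.2 with hv2
  have ru : u1 * u2 ^ q = u2 * u1 ^ q := rat _ _ (dir_bad hc hB' ha hb hcc hdet)
  have rv : v1 * v2 ^ q = v2 * v1 ^ q := rat _ _ (dir_bad hc hB' ha hcc hb (by
    intro h
    apply hdet
    rw [hu1, hu2, hv1, hv2]
    linear_combination -h))
  have rw1 : (v1 - u1) * (v2 - u2) ^ q = (v2 - u2) * (v1 - u1) ^ q := by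
    have h1 := rat _ _ (dir_bad hc hB' hb hcc ha (by
      intro h
      apply hdet
      rw [hu1, hu2, hv1, hv2]
      linear_combination h))
    have h2 : c.1 - b.1 = v1 - u1 := by rw [hu1, hv1]; ring
    have h3 : c.2 - b.2 = v2 - u2 := by rw [hu2, hv2]; ring
    rwa [h2, h3] at h1
  rw [hsub v2 u2, hsub v1 u1] at rw1
  have cross : u1 * v2 ^ q - u2 * v1 ^ q ≠ 0 := by
    intro h0
    have hd : (u1 * v2 - u2 * v1) ^ q ≠ 0 := pow_ne_zero _ (sub_ne_zero.2 hdet)
    rw [hsub, mul_pow, mul_pow] at hd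
    have e1 : u1 * (u1 ^ q * v2 ^ q - u2 ^ q * v1 ^ q) = 0 := by
      linear_combination u1 ^ q * h0 - v1 ^ q * ru
    have e2 : u2 * (u1 ^ q * v2 ^ q - u2 ^ q * v1 ^ q) = 0 := by
      linear_combination u2 ^ q * h0 - v2 ^ q * ru
    have e3 := (mul_eq_zero.1 e1).resolve_right hd
    have e4 := (mul_eq_zero.1 e2).resolve_right hd
    apply hdet
    rw [e3, e4]
    ring
  have key : (s * u1 + v1) * (s * u2 + v2) ^ q - (s * u2 + v2) * (s * u1 + v1) ^ q =
      (s - s ^ q) * (u1 * v2 ^ q - u2 * v1 ^ q) := by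
    rw [hadd, hadd, mul_pow, mul_pow]
    linear_combination s * s ^ q * ru + rv + s ^ q * (ru + rv - rw1)
  have hne : (s - s ^ q) * (u1 * v2 ^ q - u2 * v1 ^ q) ≠ 0 := by
    refine mul_ne_zero ?_ cross
    intro h
    exact hs (sub_eq_zero.1 h).symm
  rw [← key] at hne
  apply good_chg hB' a b c
  · intro h
    apply hne
    rw [h, hz]
    ring
  · intro h
    apply hne
    rw [rat _ _ (Or.inr h)]
    ring

end Pool.Agent.H61.Quad
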